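import Mathlib

/-!
A square matrix all of whose geometric multiplicities (over the algebraic closure) are at most `k`
is generated by `k` vectors.
-/

open Finset Module Polynomial

namespace Pool.Agent.Work.CycPerm

universe u

variable {F : Type u} [Field F] {n k : ℕ}

section coloring

theorem exists_coloring {ι : Type*} [Fintype ι] (s : Setoid ι)
    (h : ∀ i : ι, Nat.card {j // s.r j i} ≤ k) :
    ∃ r : ι → Fin k, ∀ i j, s.r i j → r i = r j → i = j := by
  classical
  have h1 : ∀ q : Quotient s, Nonempty ({j : ι // (Quotient.mk s j) = q} ↪ Fin k) := by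
    intro q
    obtain ⟨i, rfl⟩ := Quotient.exists_rep q
    apply Function.Embedding.nonempty_of_card_le
    rw [Fintype.card_fin, ← Nat.card_eq_fintype_card]
    refine le_trans (le_of_eq ?_) (h i)
    apply Nat.card_congr
    apply Equiv.subtypeEquivRight
    intro j
    exact Quotient.eq
  let emb : ∀ q : Quotient s, {j : ι // (Quotient.mk s j) = q} ↪ Fin k := fun q => (h1 q).some
  refine ⟨fun i => emb (Quotient.mk s i) ⟨i, rfl⟩, ?_⟩
  intro i j hij hr
  have h2 : ∀ (q : Quotient s) (hi : Quotient.mk s i = q), emb (Quotient.mk s i) ⟨i, rfl⟩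
      = emb q ⟨i, hi⟩ := by
    intro q hi; subst hi; rfl
  have h3 : Quotient.mk s i = Quotient.mk s j := Quotient.sound hij
  simp only at hr
  rw [h2 _ h3] at hr
  have := (emb _).injective hr
  exact congrArg Subtype.val this

end coloring

/-- Geometric multiplicities of a matrix and of its transpose agree. -/
theorem finrank_eigenspace_transpose {L : Type*} [Field L] (M : Matrix (Fin n) (Fin n) L) (t : L) :
    finrank L (Module.End.eigenspace (Matrix.toLin' M.transpose) t)
      = finrank L (Module.End.eigenspace (Matrix.toLin' M) t) := by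
  have key : ∀ P : Matrix (Fin n) (Fin n) L,
      finrank L (Module.End.eigenspace (Matrix.toLin' P) t) + (P - Matrix.scalar (Fin n) t).rank
        = n := by
    intro P
    have h1 := LinearMap.finrank_range_add_finrank_ker (Matrix.toLin' (P - Matrix.scalar (Fin n) t))
    have h2 : LinearMap.ker (Matrix.toLin' (P - Matrix.scalar (Fin n) t))
        = Module.End.eigenspace (Matrix.toLin' P) t := by
      ext x
      rw [LinearMap.mem_ker, Module.End.mem_eigenspace_iff, map_sub, LinearMap.sub_apply,
        sub_eq_zero]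
      have : Matrix.toLin' (Matrix.scalar (Fin n) t) x = t • x := by
        funext i
        simp [Matrix.toLin'_apply, Matrix.scalar_apply, Matrix.mulVec_diagonal]
      rw [this]
    rw [h2] at h1
    have h3 : (P - Matrix.scalar (Fin n) t).rank
        = finrank L (LinearMap.range (Matrix.toLin' (P - Matrix.scalar (Fin n) t))) := by
      rw [Matrix.rank, Matrix.toLin'_apply']
    have h4 : finrank L (Fin n → L) = n := by simp
    omega
  have h1 := key M
  have h2 := key M.transpose
  have h3 : (M.transpose - Matrix.scalar (Fin n) t) = (M - Matrix.scalar (Fin n) t).transpose := by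
    rw [Matrix.transpose_sub]
    congr 1
    simp [Matrix.scalar_apply, Matrix.diagonal_transpose]
  rw [h3, Matrix.rank_transpose] at h2
  omega

/-- Evaluation at `t` as a semilinear map. -/
noncomputable def evs {L : Type*} [Field L] [Algebra F L] (t : L) :
    F[X] →ₛₗ[(aeval t : F[X] →ₐ[F] L).toRingHom] L where
  toFun := fun c => aeval t c
  map_add' := by intro a b; simp
  map_smul' := by intro a b; simp

open DirectSum in
/-- The number of primary components at one prime is at most the geometric multiplicity. -/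
theorem card_class_le {L : Type*} [Field L] [Algebra F L] (M : Matrix (Fin n) (Fin n) F)
    {ι : Type*} [DecidableEq ι] (p : ι → F[X]) (e : ι → ℕ)
    (l : Module.AEval' (Matrix.toLin' M) ≃ₗ[F[X]] ⨁ i : ι, F[X] ⧸ F[X] ∙ p i ^ e i)
    (t : L) (J : Finset ι) (hJ : ∀ j ∈ J, e j ≠ 0 ∧ aeval t (p j) = 0) :
    J.card ≤ finrank L (Module.End.eigenspace (Matrix.toLin' (M.map (algebraMap F L))) t) := by
  classical
  rw [← finrank_eigenspace_transpose]
  -- the functionals
  have hker : ∀ j : J, (F[X] ∙ p j.1 ^ e j.1) ≤ LinearMap.ker (evs (F := F) t) := by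
    intro j
    rw [Submodule.span_singleton_le_iff_mem, LinearMap.mem_ker]
    change aeval t (p j.1 ^ e j.1) = 0
    rw [map_pow, (hJ j.1 j.2).2, zero_pow (hJ j.1 j.2).1]
  let ψ : ∀ j : J, (F[X] ⧸ F[X] ∙ p j.1 ^ e j.1) →ₛₗ[(aeval t : F[X] →ₐ[F] L).toRingHom] L :=
    fun j => Submodule.liftQ _ (evs (F := F) t) (hker j)
  let φ : ∀ j : J, Module.AEval' (Matrix.toLin' M) →ₛₗ[(aeval t : F[X] →ₐ[F] L).toRingHom] L :=
    fun j => (ψ j).comp ((DirectSum.component F[X] ι _ j.1).comp l.toLinearMap)
  have hφC : ∀ (j : J) (c : F) (y : Module.AEval' (Matrix.toLin' M)),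
      φ j (c • y) = algebraMap F L c * φ j y := by
    intro j c y
    have h1 : c • y = (C c : F[X]) • y := (Module.AEval.C_smul _ _ _).symm
    rw [h1, map_smulₛₗ]
    simp
  have hφX : ∀ (j : J) (x : Fin n → F),
      φ j (Module.AEval'.of _ (Matrix.toLin' M x)) = t * φ j (Module.AEval'.of _ x) := by
    intro j x
    rw [← Module.AEval'.X_smul_of, map_smulₛₗ]
    simp
  let w : J → (Fin n → L) := fun j a => φ j (Module.AEval'.of _ (Pi.single a 1))
  have hw : ∀ (j : J) (x : Fin n → F),
      φ j (Module.AEval'.of _ x) = ∑ a, algebraMap F L (x a) * w j a := by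
    intro j x
    have h1 : x = ∑ a, x a • (Pi.single a 1 : Fin n → F) := by
      funext b
      simp [Finset.sum_apply, Pi.single_apply]
    conv_lhs => rw [h1]
    rw [map_sum, map_sum]
    apply Finset.sum_congr rfl
    intro a _
    rw [map_smul, hφC]
  have hmem : ∀ j : J, w j ∈ Module.End.eigenspace
      (Matrix.toLin' (M.map (algebraMap F L)).transpose) t := by
    intro j
    rw [Module.End.mem_eigenspace_iff]
    funext a
    rw [Matrix.toLin'_apply, Pi.smul_apply, smul_eq_mul]
    change _ = t * φ j (Module.AEval'.of _ (Pi.single a 1))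
    rw [← hφX, hw]
    simp only [Matrix.mulVec, dotProduct, Matrix.transpose_apply, Matrix.map_apply]
    apply Finset.sum_congr rfl
    intro b _
    congr 2
    simp [Matrix.toLin'_apply]
  have hli : LinearIndependent L w := by
    rw [Fintype.linearIndependent_iff]
    intro g hg j₀
    have h1 : ∀ x : Fin n → F, ∑ j, g j * φ j (Module.AEval'.of _ x) = 0 := by
      intro x
      have h2 : ∀ j, g j * φ j (Module.AEval'.of _ x)
          = ∑ a, algebraMap F L (x a) * (g j * w j a) := by
        intro j
        rw [hw, Finset.mul_sum]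
        apply Finset.sum_congr rfl
        intro a _; ring
      rw [Finset.sum_congr rfl fun j _ => h2 j, Finset.sum_comm]
      apply Finset.sum_eq_zero
      intro a _
      rw [← Finset.mul_sum]
      have h3 := congrFun hg a
      simp only [Finset.sum_apply, Pi.smul_apply, smul_eq_mul, Pi.zero_apply] at h3
      rw [h3, mul_zero]
    have h4 := h1 ((Module.AEval'.of _).symm (l.symm (DirectSum.lof F[X] ι _ j₀.1
      (Submodule.Quotient.mk 1))))
    have h5 : ∀ j : J, φ j (Module.AEval'.of _ ((Module.AEval'.of _).symm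
        (l.symm (DirectSum.lof F[X] ι _ j₀.1 (Submodule.Quotient.mk 1)))))
        = if j = j₀ then 1 else 0 := by
      intro j
      rw [LinearEquiv.apply_symm_apply]
      change ψ j (DirectSum.component F[X] ι _ j.1 (l (l.symm _))) = _
      rw [LinearEquiv.apply_symm_apply]
      split_ifs with h
      · subst h
        rw [DirectSum.component.lof_self]
        change aeval t (1 : F[X]) = 1
        simp
      · have h6 : DirectSum.component F[X] ι (fun i => F[X] ⧸ F[X] ∙ p i ^ e i) j.1
            (DirectSum.lof F[X] ι _ j₀.1 (Submodule.Quotient.mk 1)) = 0 := by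
          rw [DirectSum.component.of, dif_neg]
          intro h7
          exact h (Subtype.ext h7.symm)
        rw [h6, map_zero]
    rw [Finset.sum_congr rfl fun j _ => by rw [h5 j]] at h4
    simpa using h4
  let w' : J → Module.End.eigenspace (Matrix.toLin' (M.map (algebraMap F L)).transpose) t :=
    fun j => ⟨w j, hmem j⟩
  have hli' : LinearIndependent L w' := by
    apply LinearIndependent.of_comp (Submodule.subtype _)
    exact hli
  have := hli'.fintype_card_le_finrank
  simpa using this

open DirectSum in
/-- If all geometric multiplicities over an algebraically closed extension are at most `k`, then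
`k` vectors generate the space under the matrix. -/
theorem exists_generators {L : Type*} [Field L] [Algebra F L] [IsAlgClosed L]
    (M : Matrix (Fin n) (Fin n) F)
    (h : ∀ t : L, finrank L (Module.End.eigenspace
      (Matrix.toLin' (M.map (algebraMap F L))) t) ≤ k) :
    ∃ v : Fin k → (Fin n → F),
      Submodule.span F {y | ∃ (i : Fin k) (j : ℕ), y = (M ^ j).mulVec (v i)} = ⊤ := by
  classical
  set f := Matrix.toLin' M with hf
  obtain ⟨ι, hι, p, hp, e, ⟨l⟩⟩ := Module.equiv_directSum_of_isTorsion
    (R := F[X]) (M := Module.AEval' f) (Module.AEval.isTorsion_of_finiteDimensional F (Fin n → F) f)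
  -- colouring of the nontrivial components
  let s : Setoid {i : ι // e i ≠ 0} := (Associated.setoid F[X]).comap fun i => p i.1
  have hs : ∀ i : {i : ι // e i ≠ 0}, Nat.card {j // s.r j i} ≤ k := by
    intro i
    obtain ⟨t, ht⟩ := IsAlgClosed.exists_aeval_eq_zero L (p i.1)
      (by
        intro h0
        have h1 : IsUnit (p i.1) := by
          rw [Polynomial.isUnit_iff_degree_eq_zero]; exact h0
        exact (hp i.1).not_isUnit h1)
    let J : Finset ι := Finset.univ.filter fun j => e j ≠ 0 ∧ Associated (p j) (p i.1)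
    have hJ := card_class_le M p e l t J (by
      intro j hj
      rw [Finset.mem_filter] at hj
      refine ⟨hj.2.1, ?_⟩
      obtain ⟨a, ha⟩ := hj.2.2.symm
      rw [← ha, map_mul, ht, zero_mul])
    refine le_trans (le_of_eq ?_) (hJ.trans (h t))
    rw [← Fintype.card_coe, ← Nat.card_eq_fintype_card]
    refine Nat.card_congr
      { toFun := fun j => ⟨j.1.1, by
          rw [Finset.mem_filter]; exact ⟨Finset.mem_univ _, j.1.2, j.2⟩⟩
        invFun := fun j => ⟨⟨j.1, (Finset.mem_filter.mp j.2).2.1⟩, (Finset.mem_filter.mp j.2).2.2⟩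
        left_inv := by intro j; rfl
        right_inv := by intro j; rfl }
  obtain ⟨r, hr⟩ := exists_coloring s hs
  -- generators in the direct sum
  let one' : ∀ i : ι, (⨁ i : ι, F[X] ⧸ F[X] ∙ p i ^ e i) := fun i =>
    DirectSum.lof F[X] ι (fun i => F[X] ⧸ F[X] ∙ p i ^ e i) i (Submodule.Quotient.mk 1)
  let u : Fin k → (⨁ i : ι, F[X] ⧸ F[X] ∙ p i ^ e i) := fun c =>
    ∑ i ∈ (Finset.univ : Finset {i : ι // e i ≠ 0}).filter (fun i => r i = c), one' i.1
  have hsmul : ∀ (g : F[X]) (i : ι), g • one' i
      = DirectSum.lof F[X] ι (fun i => F[X] ⧸ F[X] ∙ p i ^ e i) i (Submodule.Quotient.mk g) := by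
    intro g i
    change g • DirectSum.lof F[X] ι (fun i => F[X] ⧸ F[X] ∙ p i ^ e i) i
      (Submodule.Quotient.mk 1) = _
    rw [← map_smul, ← Submodule.Quotient.mk_smul, smul_eq_mul, mul_one]
  have hone : ∀ i : {i : ι // e i ≠ 0}, ∃ g : F[X], g • u (r i) = one' i.1 := by
    intro i
    set T := ((Finset.univ : Finset {i : ι // e i ≠ 0}).filter (fun j => r j = r i)).erase i with hT
    have hcop : IsCoprime (p i.1 ^ e i.1) (∏ j ∈ T, p j.1 ^ e j.1) := by
      apply IsCoprime.prod_right
      intro j hj
      apply IsCoprime.pow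
      rw [(hp i.1).coprime_iff_not_dvd]
      intro hdvd
      rw [hT, Finset.mem_erase, Finset.mem_filter] at hj
      have h1 : Associated (p i.1) (p j.1) := (hp i.1).associated_of_dvd (hp j.1) hdvd
      exact hj.1 (hr j i h1.symm hj.2.2)
    obtain ⟨a, b, hab⟩ := hcop
    refine ⟨b * ∏ j ∈ T, p j.1 ^ e j.1, ?_⟩
    change _ • (∑ j ∈ (Finset.univ : Finset {i : ι // e i ≠ 0}).filter (fun j => r j = r i),
      one' j.1) = _
    have hi : i ∈ (Finset.univ : Finset {i : ι // e i ≠ 0}).filter (fun j => r j = r i) := by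
      simp
    rw [← Finset.add_sum_erase _ _ hi, smul_add, Finset.smul_sum, ← hT]
    have h2 : ∀ j ∈ T, (b * ∏ j ∈ T, p j.1 ^ e j.1) • one' j.1 = 0 := by
      intro j hj
      rw [hsmul]
      have h3 : (Submodule.Quotient.mk (b * ∏ j ∈ T, p j.1 ^ e j.1) :
          F[X] ⧸ F[X] ∙ p j.1 ^ e j.1) = 0 := by
        rw [Submodule.Quotient.mk_eq_zero, Submodule.mem_span_singleton]
        obtain ⟨q, hq⟩ := Finset.dvd_prod_of_mem (fun j : {i : ι // e i ≠ 0} => p j.1 ^ e j.1) hj
        refine ⟨b * q, ?_⟩
        rw [smul_eq_mul, hq]; ring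
      rw [h3, map_zero]
    rw [Finset.sum_eq_zero h2, add_zero, hsmul]
    have h4 : (Submodule.Quotient.mk (b * ∏ j ∈ T, p j.1 ^ e j.1) :
          F[X] ⧸ F[X] ∙ p i.1 ^ e i.1) = Submodule.Quotient.mk 1 := by
      rw [Submodule.Quotient.eq, Submodule.mem_span_singleton]
      refine ⟨-a, ?_⟩
      rw [smul_eq_mul, ← hab]; ring
    rw [h4]
  have hspan : Submodule.span F[X] (Set.range u) = ⊤ := by
    rw [eq_top_iff]
    rintro x -
    induction x using DirectSum.induction_on with
    | zero => exact Submodule.zero_mem _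
    | of i y =>
      obtain ⟨g, rfl⟩ := Submodule.Quotient.mk_surjective _ y
      change DirectSum.lof F[X] ι (fun i => F[X] ⧸ F[X] ∙ p i ^ e i) i (Submodule.Quotient.mk g) ∈ _
      by_cases hi : e i = 0
      · have h1 : (Submodule.Quotient.mk g : F[X] ⧸ F[X] ∙ p i ^ e i) = 0 := by
          rw [Submodule.Quotient.mk_eq_zero, hi, pow_zero, Submodule.mem_span_singleton]
          exact ⟨g, by simp⟩
        rw [h1, map_zero]
        exact Submodule.zero_mem _
      · rw [← hsmul]
        obtain ⟨g', hg'⟩ := hone ⟨i, hi⟩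
        rw [← hg']
        exact Submodule.smul_mem _ _ (Submodule.smul_mem _ _
          (Submodule.subset_span (Set.mem_range_self _)))
    | add x y hx hy => exact Submodule.add_mem _ hx hy
  refine ⟨fun c => (Module.AEval'.of f).symm (l.symm (u c)), ?_⟩
  set W := Submodule.span F {y | ∃ (i : Fin k) (j : ℕ),
    y = (M ^ j).mulVec ((Module.AEval'.of f).symm (l.symm (u i)))} with hW
  -- stability under polynomials
  have hpow : ∀ (j : ℕ) (x : Fin n → F), (M ^ j).mulVec x = (f ^ j) x := by
    intro j x
    rw [hf, ← Matrix.toLin'_pow, Matrix.toLin'_apply]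
  have hWgen : ∀ (g : F[X]) (c : Fin k), (aeval f g) ((Module.AEval'.of f).symm (l.symm (u c))) ∈ W := by
    intro g c
    rw [Polynomial.aeval_eq_sum_range, LinearMap.sum_apply]
    apply Submodule.sum_mem
    intro j _
    rw [LinearMap.smul_apply]
    apply Submodule.smul_mem
    apply Submodule.subset_span
    exact ⟨c, j, (hpow j _).symm⟩
  rw [eq_top_iff]
  rintro x -
  have h1 : l (Module.AEval'.of f x) ∈ Submodule.span F[X] (Set.range u) := by
    rw [hspan]; exact Submodule.mem_top
  obtain ⟨g, hg⟩ := (Submodule.mem_span_range_iff_exists_fun F[X]).mp h1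
  have h2 : x = ∑ c, (aeval f (g c)) ((Module.AEval'.of f).symm (l.symm (u c))) := by
    have h3 : Module.AEval'.of f x = ∑ c, g c • l.symm (u c) := by
      apply l.injective
      rw [← hg, map_sum]
      apply Finset.sum_congr rfl
      intro c _
      rw [map_smul, LinearEquiv.apply_symm_apply]
    have h4 : x = (Module.AEval'.of f).symm (Module.AEval'.of f x) := by simp
    rw [h4, h3, map_sum]
    apply Finset.sum_congr rfl
    intro c _
    exact Module.AEval.of_symm_smul (R := F) (M := Fin n → F) (a := f) (g c) (l.symm (u c))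
  rw [h2]
  exact Submodule.sum_mem _ fun c _ => hWgen _ _

end Pool.Agent.Work.CycPerm
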