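import Pool.Agent.Work.MP_dd2eb3_cyc.Inj

/-!
Summation over all nonzero parameters `t`.
-/

open Finset Module

namespace Pool.Agent.Work.CycPerm

variable {ι : Type*} [DecidableEq ι] [Fintype ι] {K : Type*} [Field K]

/-- coordinate forms -/
def co (c : ι) : (ι → K) →ₗ[K] K := LinearMap.proj c

/-- The space cut out by the assigned rows: `b c = t • x c` for `c ∈ I`. -/
def Dt (b : ι → (ι → K) →ₗ[K] K) (I : Finset ι) (t : K) : Submodule K (ι → K) :=
  ⨅ c ∈ I, LinearMap.ker (b c - t • co c)

theorem mem_Dt {b : ι → (ι → K) →ₗ[K] K} {I : Finset ι} {t : K} {x : ι → K} :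
    x ∈ Dt b I t ↔ ∀ c ∈ I, b c x = t * x c := by
  simp only [Dt, Submodule.mem_iInf, LinearMap.mem_ker, LinearMap.sub_apply, LinearMap.smul_apply,
    sub_eq_zero, smul_eq_mul]
  rfl

theorem Dt_update (b : ι → (ι → K) →ₗ[K] K) (I : Finset ι) (t : K) (c : ι) (hc : c ∉ I)
    (a : (ι → K) →ₗ[K] K) :
    Dt (Function.update b c a) (insert c I) t = Dt b I t ⊓ LinearMap.ker (a - t • co c) := by
  ext x
  rw [Submodule.mem_inf, mem_Dt, mem_Dt, LinearMap.mem_ker]
  simp only [Finset.mem_insert, forall_eq_or_imp, Function.update_self, LinearMap.sub_apply,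
    LinearMap.smul_apply, sub_eq_zero, smul_eq_mul]
  rw [and_comm]
  refine and_congr ?_ Iff.rfl
  refine forall₂_congr fun d hd => ?_
  rw [Function.update_of_ne]
  intro h; rw [h] at hd; exact hc hd

/-- At most `card I` nonzero parameters are singular. -/
theorem card_touched_le (b : ι → (ι → K) →ₗ[K] K) (I : Finset ι) (S : Finset K)
    (hS : ∀ t ∈ S, t ≠ 0)
    (hT : ∀ t ∈ S, Dt b I t ⊓ Z co (Finset.univ \ I) ≠ ⊥) : S.card ≤ I.card := by
  classical
  have h1 : ∀ t : S, ∃ x : ι → K, x ∈ Dt b I t.1 ⊓ Z co (Finset.univ \ I) ∧ x ≠ 0 := by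
    intro t
    exact Submodule.exists_mem_ne_zero_of_ne_bot (hT t.1 t.2)
  choose x hx hx0 using h1
  set T : Module.End K (ι → K) := LinearMap.pi (fun c => if c ∈ I then b c else 0) with hTdef
  have hzero : ∀ (t : S) (c : ι), c ∉ I → x t c = 0 := by
    intro t c hc
    have := (hx t).2
    rw [SetLike.mem_coe, mem_Z] at this
    exact this c (by simp [hc])
  have heig : ∀ t : S, Module.End.HasEigenvector T t.1 (x t) := by
    intro t
    rw [Module.End.hasEigenvector_iff]
    refine ⟨?_, hx0 t⟩
    rw [Module.End.mem_eigenspace_iff]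
    funext c
    simp only [hTdef, LinearMap.pi_apply, Pi.smul_apply, smul_eq_mul]
    by_cases hc : c ∈ I
    · rw [if_pos hc]
      have := (hx t).1
      rw [SetLike.mem_coe, mem_Dt] at this
      exact this c hc
    · rw [if_neg hc, LinearMap.zero_apply, hzero t c hc, mul_zero]
  have hli : LinearIndependent K x :=
    Module.End.eigenvectors_linearIndependent' T (fun t : S => t.1) Subtype.val_injective x heig
  set ρ : (ι → K) →ₗ[K] (I → K) := LinearMap.funLeft K K (fun i : I => i.1) with hρ
  have hdis : Disjoint (Submodule.span K (Set.range x)) (LinearMap.ker ρ) := by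
    rw [Submodule.disjoint_def]
    intro y hy hy'
    have hy2 : y ∈ (Z co (Finset.univ \ I) : Submodule K (ι → K)) := by
      refine (Submodule.span_le.mpr ?_) hy
      rintro _ ⟨t, rfl⟩
      exact (hx t).2
    rw [mem_Z] at hy2
    funext c
    by_cases hc : c ∈ I
    · rw [LinearMap.mem_ker] at hy'
      have := congrFun hy' ⟨c, hc⟩
      simpa [hρ] using this
    · exact hy2 c (by simp [hc])
  have hli2 := hli.map hdis
  have := hli2.fintype_card_le_finrank
  simpa using this

/-- The number bounding the sum over `t` in a state with `n` remaining rows (`N` in total). -/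
def Cb (N : ℕ) : ℕ → ℕ
  | 0 => 0
  | (n + 1) => Cb N n + (N - n) * (2 * n + 1)

theorem allT (N : ℕ) (hN : Fintype.card ι = N) : ∀ (n : ℕ) (R : Finset ι) (hR : R.card = n)
    (b : ι → (ι → K) →ₗ[K] K) (a : Fin n → (ι → K) →ₗ[K] K) (S : Finset K) (hS : ∀ t ∈ S, t ≠ 0)
    (hU : ∀ t ∈ S, Dt b (Finset.univ \ R) t ⊓ Z co R = ⊥),
    ∑ t ∈ S, ∑ f ∈ Inj n R,
      ((2 : ℚ) ^ finrank K (Cut (fun c => t • co c) a (Dt b (Finset.univ \ R) t) f) - 1)
      ≤ n.factorial * Cb N n
  | 0, R, hR, b, a, S, hS, hU => by
      have hR0 := Finset.card_eq_zero.mp hR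
      subst hR0
      have h1 : ∀ t ∈ S, ∑ f ∈ Inj 0 (∅ : Finset ι),
        ((2 : ℚ) ^ finrank K (Cut (fun c => t • co c) a (Dt b (Finset.univ \ ∅) t) f) - 1) = 0 := by
        intro t ht
        apply Finset.sum_eq_zero
        intro f _
        have h2 : Cut (fun c => t • co c) a (Dt b (Finset.univ \ ∅) t) f = ⊥ := by
          rw [eq_bot_iff, ← hU t ht]
          intro x hx
          rw [Cut, Submodule.mem_inf] at hx
          rw [Submodule.mem_inf, mem_Z]
          exact ⟨hx.1, by simp⟩
        rw [h2, finrank_bot]
        norm_num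
      rw [Finset.sum_congr rfl h1, Finset.sum_const_zero]
      simp [Cb]
  | (n + 1), R, hR, b, a, S, hS, hU => by
      classical
      have hstep : ∀ t ∈ S, ∑ f ∈ Inj (n + 1) R,
          ((2 : ℚ) ^ finrank K (Cut (fun c => t • co c) a (Dt b (Finset.univ \ R) t) f) - 1)
          = ∑ c ∈ R, ∑ g ∈ Inj n (R.erase c),
          ((2 : ℚ) ^ finrank K (Cut (fun c => t • co c) (fun j => a j.succ)
            (Dt (Function.update b c (a 0)) (Finset.univ \ (R.erase c)) t) g) - 1) := by
        intro t _
        rw [sum_Inj_succ]
        apply Finset.sum_congr rfl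
        intro c hc
        apply Finset.sum_congr rfl
        intro g _
        have h1 : (Finset.univ \ (R.erase c)) = insert c (Finset.univ \ R) := by
          ext d
          simp only [Finset.mem_sdiff, Finset.mem_univ, true_and, Finset.mem_erase,
            Finset.mem_insert]
          by_cases hd : d = c
          · simp [hd]
          · simp [hd]
        rw [Cut_cons, h1, Dt_update b _ t c (by simp [hc])]
      rw [Finset.sum_congr rfl hstep, Finset.sum_comm]
      have hcard : ∀ c ∈ R, (R.erase c).card = n := by
        intro c hc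
        rw [Finset.card_erase_of_mem hc, hR]; rfl
      have hmain : ∀ c ∈ R, ∑ t ∈ S, ∑ g ∈ Inj n (R.erase c),
          ((2 : ℚ) ^ finrank K (Cut (fun c => t • co c) (fun j => a j.succ)
            (Dt (Function.update b c (a 0)) (Finset.univ \ (R.erase c)) t) g) - 1)
          ≤ n.factorial * Cb N (n + 1) := by
        intro c hc
        set b' := Function.update b c (a 0) with hb'
        set P : K → Prop := fun t => Dt b' (Finset.univ \ (R.erase c)) t ⊓ Z co (R.erase c) = ⊥
          with hP
        rw [← Finset.sum_filter_add_sum_filter_not S P]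
        have hA := allT N hN n (R.erase c) (hcard c hc) b' (fun j => a j.succ) (S.filter P)
          (fun t ht => hS t (Finset.mem_of_mem_filter t ht))
          (fun t ht => (Finset.mem_filter.mp ht).2)
        have hcount : (S.filter fun t => ¬ P t).card ≤ N - n := by
          have := card_touched_le b' (Finset.univ \ (R.erase c)) (S.filter fun t => ¬ P t)
            (fun t ht => hS t (Finset.mem_of_mem_filter t ht)) ?_
          · refine this.trans ?_
            rw [Finset.card_sdiff_of_subset (Finset.subset_univ _), hcard c hc, Finset.card_univ, hN]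
          · intro t ht
            have h2 := (Finset.mem_filter.mp ht).2
            have h3 : Finset.univ \ (Finset.univ \ R.erase c) = R.erase c := by
              ext d; simp
            rw [h3]
            exact h2
        have hB : ∀ t ∈ S.filter (fun t => ¬ P t), ∑ g ∈ Inj n (R.erase c),
            ((2 : ℚ) ^ finrank K (Cut (fun c => t • co c) (fun j => a j.succ)
            (Dt b' (Finset.univ \ (R.erase c)) t) g) - 1) ≤ n.factorial * (2 * n + 1) := by
          intro t ht
          have htS := Finset.mem_of_mem_filter t ht
          have ht0 := hS t htS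
          rw [Finset.sum_sub_distrib]
          have h1 := sum_Inj_le_G (fun c => t • co (K := K) c) n (R.erase c)
            (fun j => a j.succ) (Dt b' (Finset.univ \ (R.erase c)) t) (hcard c hc)
          have hZ : ∀ R' : Finset ι, Z (fun c => t • co (K := K) c) R' = Z co R' := by
            intro R'
            ext x
            rw [mem_Z, mem_Z]
            refine forall₂_congr fun d _ => ?_
            simp [ht0]
          have h2 : finrank K (Dt b' (Finset.univ \ (R.erase c)) t
              ⊓ Z (fun c => t • co (K := K) c) (R.erase c) : Submodule K (ι → K)) ≤ 1 := by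
            rw [hZ]
            refine (finrank_le_inf_ker _ (co c)).trans ?_
            have h3 : (Dt b' (Finset.univ \ (R.erase c)) t ⊓ Z co (R.erase c))
                ⊓ LinearMap.ker (co c) = ⊥ := by
              rw [eq_bot_iff, ← hU t htS]
              have h4 : (Finset.univ \ (R.erase c)) = insert c (Finset.univ \ R) := by
                ext d
                simp only [Finset.mem_sdiff, Finset.mem_univ, true_and, Finset.mem_erase,
                  Finset.mem_insert]
                by_cases hd : d = c
                · simp [hd]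
                · simp [hd]
              rw [h4, hb', Dt_update b _ t c (by simp [hc])]
              intro x hx
              simp only [Submodule.mem_inf, mem_Z, LinearMap.mem_ker, Finset.mem_erase] at hx ⊢
              obtain ⟨⟨⟨h5, _⟩, h6⟩, h7⟩ := hx
              refine ⟨h5, fun d hd => ?_⟩
              by_cases hdc : d = c
              · rw [hdc]; exact h7
              · exact h6 d ⟨hdc, hd⟩
            rw [h3, finrank_bot]
          have h5 := G_le (fun c => t • co (K := K) c) 1 n (R.erase c)
            (Dt b' (Finset.univ \ (R.erase c)) t) (hcard c hc) h2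
          have h6 : ∑ g ∈ Inj n (R.erase c), (1 : ℚ) = n.factorial := by
            rw [Finset.sum_const, card_Inj n _ (hcard c hc)]; simp
          rw [h6]
          have h7 : (0 : ℚ) ≤ n.factorial := by positivity
          have h8 := mul_le_mul_of_nonneg_left h5 h7
          refine (sub_le_sub_right (h1.trans h8) _).trans (le_of_eq ?_)
          ring
        have hC : ∑ t ∈ S.filter (fun t => ¬ P t), ∑ g ∈ Inj n (R.erase c),
            ((2 : ℚ) ^ finrank K (Cut (fun c => t • co c) (fun j => a j.succ)
            (Dt b' (Finset.univ \ (R.erase c)) t) g) - 1)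
            ≤ ((N - n : ℕ) : ℚ) * (n.factorial * (2 * n + 1)) := by
          refine (Finset.sum_le_sum hB).trans ?_
          rw [Finset.sum_const, nsmul_eq_mul]
          apply mul_le_mul_of_nonneg_right _ (by positivity)
          exact_mod_cast hcount
        refine (add_le_add hA hC).trans (le_of_eq ?_)
        rw [Cb]
        push_cast
        ring
      refine (Finset.sum_le_sum hmain).trans (le_of_eq ?_)
      rw [Finset.sum_const, hR, nsmul_eq_mul, Nat.factorial_succ]
      push_cast
      ring

end Pool.Agent.Work.CycPerm
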