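import Mathlib

/-!
Chain potential for random permutations.

`G v n R D` is the average over all orders of the finite set `R` (of size `n`) of the sum, over the
initial segments `T` of the order, of `2 ^ (dim (D cut by the forms v c, c in T) - card (R minus T))`.
The main lemma `G_step` says that `G` is a supermartingale when one reveals the image of one row.
-/

open Finset Module

namespace Pool.Agent.Work.CycPerm

variable {K : Type*} [Field K] {V : Type*} [AddCommGroup V] [Module K V] [FiniteDimensional K V]
variable {ι : Type*} [DecidableEq ι]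

/-- The chain potential. -/
noncomputable def G (v : ι → V →ₗ[K] K) : ℕ → Finset ι → Submodule K V → ℚ
  | 0, _, D => 2 ^ finrank K D
  | (n + 1), R, D => 2 ^ finrank K D / 2 ^ (n + 1)
      + (1 / ((n : ℚ) + 1)) * ∑ c ∈ R, G v n (R.erase c) (D ⊓ LinearMap.ker (v c))

theorem finrank_inf_ker_of_le {D : Submodule K V} {f : V →ₗ[K] K} (h : D ≤ LinearMap.ker f) :
    D ⊓ LinearMap.ker f = D := inf_eq_left.mpr h

theorem finrank_inf_ker_of_not_le {D : Submodule K V} {f : V →ₗ[K] K}
    (h : ¬ D ≤ LinearMap.ker f) :
    finrank K (D ⊓ LinearMap.ker f : Submodule K V) + 1 = finrank K D := by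
  have h1 := LinearMap.finrank_range_add_finrank_ker (f.domRestrict D)
  have h2 : finrank K (LinearMap.range (f.domRestrict D)) = 1 := by
    have hne : f.domRestrict D ≠ 0 := by
      intro h0
      apply h
      intro x hx
      have := LinearMap.congr_fun h0 ⟨x, hx⟩
      simpa using this
    have hsurj : Function.Surjective (f.domRestrict D) := LinearMap.surjective hne
    rw [LinearMap.range_eq_top.mpr hsurj, finrank_top]
    exact finrank_self K
  have h3 : finrank K (LinearMap.ker (f.domRestrict D))
      = finrank K (D ⊓ LinearMap.ker f : Submodule K V) := by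
    have : LinearMap.ker (f.domRestrict D) = (LinearMap.ker f).comap D.subtype := by
      ext x; simp
    rw [this]
    have h4 : Submodule.map D.subtype ((LinearMap.ker f).comap D.subtype)
        = D ⊓ LinearMap.ker f := by
      rw [Submodule.map_comap_subtype]
    rw [← h4]
    exact (LinearEquiv.finrank_eq
      (Submodule.equivMapOfInjective D.subtype D.injective_subtype _))
  omega

theorem finrank_le_inf_ker (D : Submodule K V) (f : V →ₗ[K] K) :
    finrank K D ≤ finrank K (D ⊓ LinearMap.ker f : Submodule K V) + 1 := by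
  by_cases h : D ≤ LinearMap.ker f
  · rw [finrank_inf_ker_of_le h]; omega
  · rw [finrank_inf_ker_of_not_le h]

theorem G_nonneg (v : ι → V →ₗ[K] K) : ∀ (n : ℕ) (R : Finset ι) (D : Submodule K V),
    0 ≤ G v n R D
  | 0, _, D => by simp only [G]; positivity
  | (n + 1), R, D => by
      simp only [G]
      have : 0 ≤ ∑ c ∈ R, G v n (R.erase c) (D ⊓ LinearMap.ker (v c)) :=
        Finset.sum_nonneg fun c _ => G_nonneg v n _ _
      positivity

/-- Key step: revealing the image of one row does not increase the potential on average. -/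
theorem G_step (v : ι → V →ₗ[K] K) (a : V →ₗ[K] K) :
    ∀ (n : ℕ) (R : Finset ι) (D : Submodule K V), R.card = n + 1 →
      ∑ p ∈ R, G v n (R.erase p) (D ⊓ LinearMap.ker (a - v p)) ≤ ((n : ℚ) + 1) * G v (n + 1) R D
  | 0, R, D, hR => by
      obtain ⟨p, rfl⟩ := Finset.card_eq_one.mp hR
      simp only [G, Finset.sum_singleton, Nat.cast_zero, zero_add, pow_one, one_mul, div_one]
      by_cases h1 : D ≤ LinearMap.ker (a - v p)
      · rw [finrank_inf_ker_of_le h1]
        have h2 := finrank_le_inf_ker D (v p)
        have h3 : (2 : ℚ) ^ finrank K D ≤ 2 * 2 ^ finrank K (D ⊓ LinearMap.ker (v p) : Submodule K V) := by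
          rw [← pow_succ']
          exact pow_le_pow_right₀ (by norm_num) h2
        linarith
      · have h2 := finrank_inf_ker_of_not_le h1
        have h3 : (2 : ℚ) ^ finrank K D
            = 2 * 2 ^ finrank K (D ⊓ LinearMap.ker (a - v p) : Submodule K V) := by
          rw [← pow_succ', h2]
        have h4 : (0 : ℚ) ≤ 2 ^ finrank K (D ⊓ LinearMap.ker (v p) : Submodule K V) := by positivity
        linarith
  | (n + 1), R, D, hR => by
      -- the correction term
      classical
      set X : ι → ℚ := fun c => if D ⊓ LinearMap.ker (v c) ≤ LinearMap.ker a then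
        2 ^ finrank K (D ⊓ LinearMap.ker (v c) : Submodule K V) / 2 ^ (n + 1) else 0 with hX
      have hcard : ∀ c ∈ R, (R.erase c).card = n + 1 := by
        intro c hc
        rw [Finset.card_erase_of_mem hc, hR]; rfl
      -- the inner sums
      have hL : ∀ c ∈ R, ∑ p ∈ R.erase c, G v n ((R.erase c).erase p)
          ((D ⊓ LinearMap.ker (v c)) ⊓ LinearMap.ker (a - v p))
          ≤ ((n : ℚ) + 1) * (G v (n + 1) (R.erase c) (D ⊓ LinearMap.ker (v c)) - X c) := by
        intro c hc
        by_cases ha : D ⊓ LinearMap.ker (v c) ≤ LinearMap.ker a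
        · have hXc : X c = 2 ^ finrank K (D ⊓ LinearMap.ker (v c) : Submodule K V) / 2 ^ (n + 1) := by
            simp only [hX, if_pos ha]
          rw [hXc]
          have hker : ∀ p, (D ⊓ LinearMap.ker (v c)) ⊓ LinearMap.ker (a - v p)
              = (D ⊓ LinearMap.ker (v c)) ⊓ LinearMap.ker (v p) := by
            intro p
            ext x
            simp only [Submodule.mem_inf, LinearMap.mem_ker, LinearMap.sub_apply]
            constructor
            · rintro ⟨⟨h1, h2⟩, h3⟩
              have h4 : a x = 0 := ha ⟨h1, h2⟩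
              rw [h4] at h3
              refine ⟨⟨h1, h2⟩, ?_⟩
              simpa using h3
            · rintro ⟨⟨h1, h2⟩, h3⟩
              have h4 : a x = 0 := ha ⟨h1, h2⟩
              exact ⟨⟨h1, h2⟩, by rw [h4, h3, sub_zero]⟩
          simp only [hker]
          simp only [G]
          have hn : ((n : ℚ) + 1) ≠ 0 := by positivity
          apply le_of_eq
          field_simp
          ring
        · have hXc : X c = 0 := by simp only [hX, if_neg ha]
          rw [hXc, sub_zero]
          exact G_step v a n (R.erase c) _ (hcard c hc)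
      have hexp : ∑ p ∈ R, G v (n + 1) (R.erase p) (D ⊓ LinearMap.ker (a - v p))
          = ∑ p ∈ R, (2 : ℚ) ^ finrank K (D ⊓ LinearMap.ker (a - v p) : Submodule K V) / 2 ^ (n + 1)
            + (1 / ((n : ℚ) + 1)) * ∑ c ∈ R, ∑ p ∈ R.erase c, G v n ((R.erase c).erase p)
              ((D ⊓ LinearMap.ker (v c)) ⊓ LinearMap.ker (a - v p)) := by
        have h1 : ∀ p ∈ R, G v (n + 1) (R.erase p) (D ⊓ LinearMap.ker (a - v p))
            = (2 : ℚ) ^ finrank K (D ⊓ LinearMap.ker (a - v p) : Submodule K V) / 2 ^ (n + 1)
              + (1 / ((n : ℚ) + 1)) * ∑ c ∈ R.erase p, G v n ((R.erase p).erase c)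
                ((D ⊓ LinearMap.ker (a - v p)) ⊓ LinearMap.ker (v c)) := by
          intro p _
          simp only [G]
        rw [Finset.sum_congr rfl h1, Finset.sum_add_distrib, ← Finset.mul_sum]
        congr 2
        -- exchange the order of summation
        have h2 : ∀ p ∈ R, ∑ c ∈ R.erase p, G v n ((R.erase p).erase c)
                ((D ⊓ LinearMap.ker (a - v p)) ⊓ LinearMap.ker (v c))
            = ∑ c ∈ R, if c ≠ p then G v n ((R.erase p).erase c)
                ((D ⊓ LinearMap.ker (a - v p)) ⊓ LinearMap.ker (v c)) else 0 := by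
          intro p hp
          rw [← Finset.sum_filter]
          apply Finset.sum_congr _ (fun _ _ => rfl)
          ext c
          simp only [Finset.mem_erase, Finset.mem_filter]
          tauto
        have h3 : ∀ c ∈ R, ∑ p ∈ R.erase c, G v n ((R.erase c).erase p)
              ((D ⊓ LinearMap.ker (v c)) ⊓ LinearMap.ker (a - v p))
            = ∑ p ∈ R, if c ≠ p then G v n ((R.erase p).erase c)
                ((D ⊓ LinearMap.ker (a - v p)) ⊓ LinearMap.ker (v c)) else 0 := by
          intro c hc
          rw [← Finset.sum_filter]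
          apply Finset.sum_congr
          · ext p
            simp only [Finset.mem_erase, Finset.mem_filter]
            constructor
            · rintro ⟨h, h'⟩; exact ⟨h', fun e => h e.symm⟩
            · rintro ⟨h, h'⟩; exact ⟨fun e => h' e.symm, h⟩
          · intro p _
            rw [Finset.erase_right_comm, inf_right_comm]
        rw [Finset.sum_congr rfl h2, Finset.sum_congr rfl h3, Finset.sum_comm]
      rw [hexp]
      have hn : (0 : ℚ) < (n : ℚ) + 1 := by positivity
      have hsum : (1 / ((n : ℚ) + 1)) * ∑ c ∈ R, ∑ p ∈ R.erase c, G v n ((R.erase c).erase p)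
              ((D ⊓ LinearMap.ker (v c)) ⊓ LinearMap.ker (a - v p))
          ≤ ∑ c ∈ R, (G v (n + 1) (R.erase c) (D ⊓ LinearMap.ker (v c)) - X c) := by
        rw [div_mul_eq_mul_div, one_mul, div_le_iff₀ hn, mul_comm, Finset.mul_sum]
        exact Finset.sum_le_sum hL
      have hterm : ∀ p ∈ R, (2 : ℚ) ^ finrank K (D ⊓ LinearMap.ker (a - v p) : Submodule K V)
          / 2 ^ (n + 1) - X p ≤ 2 ^ finrank K D / 2 ^ (n + 2) := by
        intro p _
        by_cases h1 : D ≤ LinearMap.ker (a - v p)
        · rw [finrank_inf_ker_of_le h1]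
          have hker : D ⊓ LinearMap.ker (v p) ≤ LinearMap.ker a := by
            rintro x ⟨hx, hx'⟩
            have h2 := h1 hx
            simp only [LinearMap.mem_ker, LinearMap.sub_apply] at h2 hx' ⊢
            rw [hx', sub_zero] at h2
            exact h2
          have hXp : X p = 2 ^ finrank K (D ⊓ LinearMap.ker (v p) : Submodule K V) / 2 ^ (n + 1) := by
            simp only [hX, if_pos hker]
          rw [hXp]
          have h2 := finrank_le_inf_ker D (v p)
          have h3 : (2 : ℚ) ^ finrank K D
              ≤ 2 * 2 ^ finrank K (D ⊓ LinearMap.ker (v p) : Submodule K V) := by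
            rw [← pow_succ']
            exact pow_le_pow_right₀ (by norm_num) h2
          rw [div_sub_div_same, div_le_div_iff₀ (by positivity) (by positivity)]
          have h5 : (0 : ℚ) < 2 ^ (n + 1) := by positivity
          have h6 : (2 : ℚ) ^ (n + 2) = 2 * 2 ^ (n + 1) := by rw [pow_succ]; ring
          rw [h6]
          nlinarith
        · have h2 := finrank_inf_ker_of_not_le h1
          have h3 : (2 : ℚ) ^ finrank K D
              = 2 * 2 ^ finrank K (D ⊓ LinearMap.ker (a - v p) : Submodule K V) := by
            rw [← pow_succ', h2]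
          have h4 : 0 ≤ X p := by
            simp only [hX]; split_ifs <;> positivity
          have h6 : (2 : ℚ) ^ (n + 2) = 2 * 2 ^ (n + 1) := by rw [pow_succ]; ring
          rw [h3, h6, mul_div_mul_left _ _ (by norm_num)]
          linarith
      have hsum2 : ∑ p ∈ R, ((2 : ℚ) ^ finrank K (D ⊓ LinearMap.ker (a - v p) : Submodule K V)
          / 2 ^ (n + 1) - X p) ≤ ((n : ℚ) + 2) * (2 ^ finrank K D / 2 ^ (n + 2)) := by
        refine (Finset.sum_le_sum hterm).trans ?_
        rw [Finset.sum_const, hR, nsmul_eq_mul]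
        push_cast
        apply le_of_eq; ring
      have hG : (((n + 1 : ℕ) : ℚ) + 1) * G v (n + 1 + 1) R D
          = ((n : ℚ) + 2) * (2 ^ finrank K D / 2 ^ (n + 2))
            + ∑ c ∈ R, G v (n + 1) (R.erase c) (D ⊓ LinearMap.ker (v c)) := by
        rw [G]
        push_cast
        have : (n : ℚ) + 1 + 1 ≠ 0 := by positivity
        field_simp
        ring
      rw [hG]
      rw [Finset.sum_sub_distrib] at hsum2
      rw [Finset.sum_sub_distrib] at hsum
      linarith

/-- The common kernel of the forms `v c`, `c ∈ R`. -/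
def Z (v : ι → V →ₗ[K] K) (R : Finset ι) : Submodule K V := ⨅ c ∈ R, LinearMap.ker (v c)

theorem mem_Z {v : ι → V →ₗ[K] K} {R : Finset ι} {x : V} : x ∈ Z v R ↔ ∀ c ∈ R, v c x = 0 := by
  simp [Z, Submodule.mem_iInf]

theorem inf_Z_erase (v : ι → V →ₗ[K] K) (D : Submodule K V) {R : Finset ι} {c : ι} (hc : c ∈ R) :
    (D ⊓ LinearMap.ker (v c)) ⊓ Z v (R.erase c) = D ⊓ Z v R := by
  ext x
  simp only [Submodule.mem_inf, mem_Z, LinearMap.mem_ker, Finset.mem_erase]
  constructor
  · rintro ⟨⟨h1, h2⟩, h3⟩
    refine ⟨h1, fun d hd => ?_⟩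
    by_cases h : d = c
    · rw [h]; exact h2
    · exact h3 d ⟨h, hd⟩
  · rintro ⟨h1, h2⟩
    exact ⟨⟨h1, h2 c hc⟩, fun d hd => h2 d hd.2⟩

theorem finrank_le_inf_Z (v : ι → V →ₗ[K] K) : ∀ (n : ℕ) (R : Finset ι) (D : Submodule K V),
    R.card = n → finrank K D ≤ finrank K (D ⊓ Z v R : Submodule K V) + n
  | 0, R, D, hR => by
      rw [Finset.card_eq_zero] at hR
      subst hR
      have : D ⊓ Z v ∅ = D := by
        rw [inf_eq_left]
        intro x _
        rw [mem_Z]; simp
      rw [this]; omega
  | (n + 1), R, D, hR => by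
      obtain ⟨c, hc⟩ : R.Nonempty := by rw [← Finset.card_pos, hR]; omega
      have h1 := finrank_le_inf_Z v n (R.erase c) (D ⊓ LinearMap.ker (v c))
        (by rw [Finset.card_erase_of_mem hc, hR]; rfl)
      rw [inf_Z_erase v D hc] at h1
      have h2 := finrank_le_inf_ker D (v c)
      omega

/-- Upper bound of the potential by the defect. -/
theorem G_le (v : ι → V →ₗ[K] K) (m : ℕ) : ∀ (n : ℕ) (R : Finset ι) (D : Submodule K V),
    R.card = n → finrank K (D ⊓ Z v R : Submodule K V) ≤ m → G v n R D ≤ 2 ^ m * ((n : ℚ) + 1)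
  | 0, R, D, hR, h => by
      have h1 := finrank_le_inf_Z v 0 R D hR
      simp only [G, Nat.cast_zero, zero_add, mul_one]
      exact pow_le_pow_right₀ (by norm_num) (by omega)
  | (n + 1), R, D, hR, h => by
      have h1 := finrank_le_inf_Z v (n + 1) R D hR
      simp only [G]
      have h2 : (2 : ℚ) ^ finrank K D / 2 ^ (n + 1) ≤ 2 ^ m := by
        rw [div_le_iff₀ (by positivity), ← pow_add]
        exact pow_le_pow_right₀ (by norm_num) (by omega)
      have h3 : ∑ c ∈ R, G v n (R.erase c) (D ⊓ LinearMap.ker (v c))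
          ≤ ∑ c ∈ R, 2 ^ m * ((n : ℚ) + 1) := by
        apply Finset.sum_le_sum
        intro c hc
        apply G_le v m n (R.erase c)
        · rw [Finset.card_erase_of_mem hc, hR]; rfl
        · rw [inf_Z_erase v D hc]; exact h
      rw [Finset.sum_const, hR, nsmul_eq_mul] at h3
      have hn : (0 : ℚ) < (n : ℚ) + 1 := by positivity
      have h4 : (1 / ((n : ℚ) + 1)) * ∑ c ∈ R, G v n (R.erase c) (D ⊓ LinearMap.ker (v c))
          ≤ 2 ^ m * ((n : ℚ) + 1) := by
        rw [div_mul_eq_mul_div, one_mul, div_le_iff₀ hn]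
        refine h3.trans (le_of_eq ?_)
        push_cast; ring
      push_cast
      linarith

end Pool.Agent.Work.CycPerm
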