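import Pool.Agent.Work.MP_dd2eb3_cyc.Chain

/-!
Sums over injections, the first moment of `2 ^ nullity`, and the sum over all parameters `t`.
-/

open Finset Module

namespace Pool.Agent.Work.CycPerm

variable {ι : Type*} [DecidableEq ι] [Fintype ι]

/-- The injective maps `Fin n → ι` with values in `R`. -/
def Inj (n : ℕ) (R : Finset ι) : Finset (Fin n → ι) :=
  (Finset.univ : Finset (Fin n → ι)).filter fun f => Function.Injective f ∧ ∀ i, f i ∈ R

theorem mem_Inj {n : ℕ} {R : Finset ι} {f : Fin n → ι} :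
    f ∈ Inj n R ↔ Function.Injective f ∧ ∀ i, f i ∈ R := by
  simp [Inj]

theorem sum_Inj_succ {M : Type*} [AddCommMonoid M] (n : ℕ) (R : Finset ι)
    (F : (Fin (n + 1) → ι) → M) :
    ∑ f ∈ Inj (n + 1) R, F f = ∑ c ∈ R, ∑ g ∈ Inj n (R.erase c), F (Fin.cons c g) := by
  rw [Finset.sum_sigma']
  refine Finset.sum_bij' (fun f _ => ⟨f 0, Fin.tail f⟩) (fun x _ => Fin.cons x.1 x.2) ?_ ?_ ?_ ?_ ?_
  · intro f hf
    rw [mem_Inj] at hf
    rw [Finset.mem_sigma, mem_Inj]
    refine ⟨hf.2 0, ?_, ?_⟩
    · intro i j hij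
      have := hf.1 hij
      exact Fin.succ_injective _ this
    · intro i
      rw [Finset.mem_erase]
      refine ⟨?_, hf.2 _⟩
      intro h
      have := hf.1 h
      exact Fin.succ_ne_zero i this
  · intro x hx
    rw [Finset.mem_sigma, mem_Inj] at hx
    rw [mem_Inj]
    refine ⟨?_, ?_⟩
    · rw [Fin.cons_injective_iff]
      refine ⟨?_, hx.2.1⟩
      rintro ⟨i, hi⟩
      have := hx.2.2 i
      rw [Finset.mem_erase] at this
      exact this.1 hi
    · intro i
      refine Fin.cases ?_ ?_ i
      · simpa using hx.1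
      · intro j
        simpa using Finset.mem_of_mem_erase (hx.2.2 j)
  · intro f _
    exact Fin.cons_self_tail f
  · intro x _
    simp
  · intro f _
    rw [Fin.cons_self_tail f]

theorem card_Inj : ∀ (n : ℕ) (R : Finset ι), R.card = n → (Inj n R).card = n.factorial
  | 0, R, hR => by
      rw [Finset.card_eq_zero] at hR
      subst hR
      rw [Nat.factorial_zero, Finset.card_eq_one]
      refine ⟨Fin.elim0, ?_⟩
      ext f
      simp only [mem_Inj, Finset.mem_singleton]
      constructor
      · intro _; exact Subsingleton.elim _ _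
      · intro _; exact ⟨fun i => i.elim0, fun i => i.elim0⟩
  | (n + 1), R, hR => by
      rw [Finset.card_eq_sum_ones, sum_Inj_succ]
      have : ∀ c ∈ R, ∑ g ∈ Inj n (R.erase c), 1 = n.factorial := by
        intro c hc
        rw [← Finset.card_eq_sum_ones]
        exact card_Inj n _ (by rw [Finset.card_erase_of_mem hc, hR]; rfl)
      rw [Finset.sum_congr rfl this, Finset.sum_const, hR, Nat.factorial_succ, smul_eq_mul]

variable {K : Type*} [Field K] {V : Type*} [AddCommGroup V] [Module K V] [FiniteDimensional K V]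

/-- The final space: `D` cut by the forms `a j - v (f j)`. -/
def Cut {n : ℕ} (v : ι → V →ₗ[K] K) (a : Fin n → V →ₗ[K] K) (D : Submodule K V) (f : Fin n → ι) :
    Submodule K V := D ⊓ ⨅ j, LinearMap.ker (a j - v (f j))

theorem Cut_cons {n : ℕ} (v : ι → V →ₗ[K] K) (a : Fin (n + 1) → V →ₗ[K] K) (D : Submodule K V)
    (c : ι) (g : Fin n → ι) :
    Cut v a D (Fin.cons c g)
      = Cut v (fun j => a j.succ) (D ⊓ LinearMap.ker (a 0 - v c)) g := by
  ext x
  simp only [Cut, Submodule.mem_inf, Submodule.mem_iInf, LinearMap.mem_ker, Fin.forall_fin_succ,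
    Fin.cons_zero, Fin.cons_succ, and_assoc]

/-- First moment of `2 ^ nullity`, by the chain potential. -/
theorem sum_Inj_le_G (v : ι → V →ₗ[K] K) : ∀ (n : ℕ) (R : Finset ι) (a : Fin n → V →ₗ[K] K)
    (D : Submodule K V), R.card = n →
      ∑ f ∈ Inj n R, (2 : ℚ) ^ finrank K (Cut v a D f) ≤ n.factorial * G v n R D
  | 0, R, a, D, hR => by
      have h1 : ∀ f ∈ Inj 0 R, (2 : ℚ) ^ finrank K (Cut v a D f) = 2 ^ finrank K D := by
        intro f _
        have : Cut v a D f = D := by
          ext x
          simp [Cut]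
        rw [this]
      rw [Finset.sum_congr rfl h1, Finset.sum_const, card_Inj 0 R hR]
      simp [G]
  | (n + 1), R, a, D, hR => by
      rw [sum_Inj_succ]
      have h1 : ∀ c ∈ R, ∑ g ∈ Inj n (R.erase c), (2 : ℚ) ^ finrank K (Cut v a D (Fin.cons c g))
          ≤ n.factorial * G v n (R.erase c) (D ⊓ LinearMap.ker (a 0 - v c)) := by
        intro c hc
        have h2 := sum_Inj_le_G v n (R.erase c) (fun j => a j.succ)
          (D ⊓ LinearMap.ker (a 0 - v c)) (by rw [Finset.card_erase_of_mem hc, hR]; rfl)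
        refine le_trans (le_of_eq ?_) h2
        apply Finset.sum_congr rfl
        intro g _
        rw [Cut_cons]
      refine (Finset.sum_le_sum h1).trans ?_
      rw [← Finset.mul_sum]
      have h3 := G_step v (a 0) n R D hR
      have h4 : (0 : ℚ) ≤ n.factorial := by positivity
      refine (mul_le_mul_of_nonneg_left h3 h4).trans (le_of_eq ?_)
      rw [Nat.factorial_succ]
      push_cast
      ring

end Pool.Agent.Work.CycPerm
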