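import Pool.Agent.Work.MP_dd2eb3_cyc.AllT

/-!
Permutation matrices.
-/

open Finset Module

namespace Pool.Agent.Work.CycPerm

variable {L : Type*} [Field L]

/-- geometric multiplicity -/
noncomputable def gm {n : ℕ} (M : Matrix (Fin n) (Fin n) L) (t : L) : ℕ :=
  finrank L (Module.End.eigenspace (Matrix.toLin' M) t)

/-- row forms -/
def rowForm {n : ℕ} (A : Matrix (Fin n) (Fin n) L) (j : Fin n) : (Fin n → L) →ₗ[L] L :=
  (LinearMap.proj j).comp (Matrix.toLin' A)

theorem rowForm_apply {n : ℕ} (A : Matrix (Fin n) (Fin n) L) (j : Fin n) (x : Fin n → L) :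
    rowForm A j x = A.mulVec x j := by
  simp [rowForm]

theorem gm_perm {n : ℕ} (A : Matrix (Fin n) (Fin n) L) (σ : Equiv.Perm (Fin n)) (t : L) :
    gm (A * σ.permMatrix L) t
      = finrank L (Cut (fun c => t • co (K := L) c) (rowForm A) ⊤ (fun j => σ⁻¹ j)) := by
  have h : Cut (fun c => t • co (K := L) c) (rowForm A) ⊤ (fun j => σ⁻¹ j)
      = Submodule.map (LinearEquiv.funCongrLeft L L σ : (Fin n → L) →ₗ[L] (Fin n → L))
        (Module.End.eigenspace (Matrix.toLin' (A * σ.permMatrix L)) t) := by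
    ext y
    rw [Submodule.mem_map]
    simp only [Cut, Submodule.mem_inf, Submodule.mem_top, true_and, Submodule.mem_iInf,
      LinearMap.mem_ker, LinearMap.sub_apply, LinearMap.smul_apply, rowForm_apply, sub_eq_zero,
      Module.End.mem_eigenspace_iff, Matrix.toLin'_apply, ← Matrix.mulVec_mulVec,
      Matrix.permMatrix_mulVec, smul_eq_mul]
    constructor
    · intro hy
      refine ⟨y ∘ σ.symm, ?_, ?_⟩
      · funext j
        have h1 : (y ∘ σ.symm) ∘ σ = y := by funext i; simp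
        rw [h1, hy j]
        simp [co]
      · funext i
        simp [LinearEquiv.funCongrLeft, LinearMap.funLeft]
    · rintro ⟨u, hu, rfl⟩ j
      have h1 := congrFun hu j
      have h2 : ((LinearEquiv.funCongrLeft L L σ : (Fin n → L) →ₗ[L] (Fin n → L)) u) = u ∘ σ := by
        funext i; simp [LinearEquiv.funCongrLeft, LinearMap.funLeft]
      rw [h2, h1]
      simp [co]
  rw [h, gm]
  exact (LinearEquiv.finrank_map_eq _ _).symm

theorem sum_perm_eq {n : ℕ} (F : (Fin n → Fin n) → ℚ) :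
    ∑ σ : Equiv.Perm (Fin n), F (fun j => σ⁻¹ j) = ∑ f ∈ Inj n (Finset.univ : Finset (Fin n)), F f := by
  refine Finset.sum_bij (fun σ _ => fun j => σ⁻¹ j) ?_ ?_ ?_ ?_
  · intro σ _
    rw [mem_Inj]
    exact ⟨(σ⁻¹).injective, fun _ => Finset.mem_univ _⟩
  · intro σ _ τ _ h
    have : σ⁻¹ = τ⁻¹ := Equiv.ext fun j => congrFun h j
    exact inv_injective this
  · intro f hf
    rw [mem_Inj] at hf
    have hb : Function.Bijective f := Finite.injective_iff_bijective.mp hf.1
    refine ⟨(Equiv.ofBijective f hb)⁻¹, Finset.mem_univ _, ?_⟩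
    funext j
    simp
  · intro σ _; rfl

theorem Cb_eq_int (N : ℕ) : ∀ n ≤ N,
    (6 * Cb N n : ℤ) = 6 * N * n ^ 2 - n * (n - 1) * (4 * n + 1)
  | 0, _ => by simp [Cb]
  | (n + 1), h => by
      have ih := Cb_eq_int N n (by omega)
      have h1 : ((N - n : ℕ) : ℤ) = N - n := by
        rw [Nat.cast_sub (by omega)]
      rw [Cb]
      push_cast
      rw [h1]
      have : (6 : ℤ) * (Cb N n + (N - n) * (2 * n + 1)) = 6 * Cb N n + 6 * ((N - n) * (2 * n + 1)) := by
        ring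
      rw [this, ih]
      ring

theorem Cb_eq (n : ℕ) : 6 * Cb n n = n * (n + 1) * (2 * n + 1) := by
  have h := Cb_eq_int n n le_rfl
  have : ((6 * Cb n n : ℕ) : ℤ) = ((n * (n + 1) * (2 * n + 1) : ℕ) : ℤ) := by
    push_cast
    rw [h]
    ring
  exact_mod_cast this

/-- Theorem A: for one parameter. -/
theorem sum_two_pow_gm_le {n : ℕ} (A : Matrix (Fin n) (Fin n) L) (t : L) (ht : t ≠ 0) :
    ∑ σ : Equiv.Perm (Fin n), 2 ^ gm (A * σ.permMatrix L) t ≤ (n + 1).factorial := by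
  have h1 := sum_Inj_le_G (fun c => t • co (K := L) c) n Finset.univ (rowForm A) ⊤ (by simp)
  have h2 : G (fun c => t • co (K := L) c) n (Finset.univ : Finset (Fin n)) ⊤ ≤ 2 ^ 0 * ((n : ℚ) + 1) := by
    apply G_le _ 0 n _ _ (by simp)
    have : (⊤ : Submodule L (Fin n → L)) ⊓ Z (fun c => t • co (K := L) c) (Finset.univ : Finset (Fin n)) = ⊥ := by
      rw [eq_bot_iff]
      intro x hx
      rw [Submodule.mem_inf, mem_Z] at hx
      rw [Submodule.mem_bot]
      funext c
      have := hx.2 c (Finset.mem_univ _)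
      simpa [co, ht] using this
    rw [this, finrank_bot]
  have h3 : (∑ σ : Equiv.Perm (Fin n), (2 : ℚ) ^ gm (A * σ.permMatrix L) t)
      ≤ n.factorial * ((n : ℚ) + 1) := by
    have h4 : ∀ σ : Equiv.Perm (Fin n), (2 : ℚ) ^ gm (A * σ.permMatrix L) t
        = 2 ^ finrank L (Cut (fun c => t • co (K := L) c) (rowForm A) ⊤ (fun j => σ⁻¹ j)) := by
      intro σ
      rw [gm_perm]
    rw [Finset.sum_congr rfl fun σ _ => h4 σ]
    rw [sum_perm_eq (fun f => (2 : ℚ) ^ finrank L (Cut (fun c => t • co (K := L) c) (rowForm A) ⊤ f))]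
    refine h1.trans ?_
    have h5 : (0 : ℚ) ≤ n.factorial := by positivity
    refine (mul_le_mul_of_nonneg_left h2 h5).trans (le_of_eq ?_)
    ring
  have h6 : ((∑ σ : Equiv.Perm (Fin n), 2 ^ gm (A * σ.permMatrix L) t : ℕ) : ℚ)
      ≤ ((n + 1).factorial : ℕ) := by
    push_cast
    refine h3.trans (le_of_eq ?_)
    rw [Nat.factorial_succ]
    push_cast; ring
  exact_mod_cast h6

theorem Dt_empty {n : ℕ} (b : Fin n → (Fin n → L) →ₗ[L] L) (t : L) :
    Dt b (∅ : Finset (Fin n)) t = ⊤ := by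
  rw [eq_top_iff]
  intro x _
  rw [mem_Dt]
  simp

/-- Theorem B: the sum over all nonzero parameters of a finite set. -/
theorem sum_all_gm_le {n : ℕ} (A : Matrix (Fin n) (Fin n) L) (S : Finset L) (hS : ∀ t ∈ S, t ≠ 0) :
    6 * ∑ σ : Equiv.Perm (Fin n), ∑ t ∈ S, (2 ^ gm (A * σ.permMatrix L) t - 1)
      ≤ n.factorial * (n * (n + 1) * (2 * n + 1)) := by
  have h1 := allT n (by simp) n (Finset.univ : Finset (Fin n)) (by simp) (fun _ => 0) (rowForm A) S hS
    (by
      intro t ht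
      rw [eq_bot_iff]
      intro x hx
      rw [Submodule.mem_inf, mem_Z] at hx
      rw [Submodule.mem_bot]
      funext c
      exact hx.2 c (Finset.mem_univ _))
  have h2 : ∀ t : L, Dt (fun _ => (0 : (Fin n → L) →ₗ[L] L))
      (Finset.univ \ (Finset.univ : Finset (Fin n))) t = ⊤ := by
    intro t
    rw [Finset.sdiff_self]
    exact Dt_empty _ t
  have h3 : ∀ t : L, ∑ f ∈ Inj n (Finset.univ : Finset (Fin n)),
      ((2 : ℚ) ^ finrank L (Cut (fun c => t • co (K := L) c) (rowForm A) ⊤ f) - 1)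
      = ∑ σ : Equiv.Perm (Fin n), ((2 : ℚ) ^ gm (A * σ.permMatrix L) t - 1) := by
    intro t
    rw [← sum_perm_eq (fun f =>
      (2 : ℚ) ^ finrank L (Cut (fun c => t • co (K := L) c) (rowForm A) ⊤ f) - 1)]
    apply Finset.sum_congr rfl
    intro σ _
    rw [gm_perm]
  have h1' : ∑ t ∈ S, ∑ σ : Equiv.Perm (Fin n), ((2 : ℚ) ^ gm (A * σ.permMatrix L) t - 1)
      ≤ n.factorial * Cb n n := by
    refine le_trans (le_of_eq ?_) h1
    apply Finset.sum_congr rfl
    intro t _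
    rw [← h3 t]
    apply Finset.sum_congr rfl
    intro f _
    rw [h2 t]
  rw [Finset.sum_comm] at h1'
  have h4 : ((6 * ∑ σ : Equiv.Perm (Fin n), ∑ t ∈ S, (2 ^ gm (A * σ.permMatrix L) t - 1) : ℕ) : ℚ)
      ≤ ((n.factorial * (n * (n + 1) * (2 * n + 1)) : ℕ) : ℚ) := by
    rw [← Cb_eq]
    push_cast
    have h5 : ∀ σ : Equiv.Perm (Fin n), ∀ t ∈ S, ((2 ^ gm (A * σ.permMatrix L) t - 1 : ℕ) : ℚ)
        = (2 : ℚ) ^ gm (A * σ.permMatrix L) t - 1 := by
      intro σ t _
      rw [Nat.cast_sub Nat.one_le_two_pow]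
      push_cast; rfl
    rw [Finset.sum_congr rfl fun σ _ => Finset.sum_congr rfl (h5 σ)]
    linarith
  exact_mod_cast h4

end Pool.Agent.Work.CycPerm
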